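import Pool.Agent.W2helper9.SD.Stm

/-! Project SD, piece B23. -/

set_option autoImplicit false

open MvPolynomial

namespace Pool.Agent.W2helper9.SD

open Pool.Agent.Helper819.Dyn

noncomputable section

namespace B23

section ring

variable {R S : Type} [CommRing R] [CommRing S]

/-- `x^i y^j z^k` -/
def mon (i j k : ℕ) : MvPolynomial (Fin 3) R := X 0 ^ i * X 1 ^ j * X 2 ^ k

theorem mon_hom (i j k : ℕ) (h : i + j + k = 3) :
    (mon i j k : MvPolynomial (Fin 3) R).IsHomogeneous 3 := by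
  unfold mon
  have h1 := (((isHomogeneous_X R (0 : Fin 3)).pow i).mul
    ((isHomogeneous_X R (1 : Fin 3)).pow j)).mul ((isHomogeneous_X R (2 : Fin 3)).pow k)
  rw [one_mul, one_mul, one_mul, h] at h1
  exact h1

theorem cmon_hom (c : R) (i j k : ℕ) (h : i + j + k = 3) :
    (C c * (mon i j k : MvPolynomial (Fin 3) R)).IsHomogeneous 3 := by
  have h1 := (isHomogeneous_C (Fin 3) c).mul (mon_hom (R := R) i j k h)
  rw [zero_add] at h1
  exact h1

/-- the common part of the forms -/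
def Q (a : Fin 2 → R) (b : Fin 5 → R) : MvPolynomial (Fin 3) R :=
  C (a 1) * mon 1 0 2 + C (a 0) * mon 2 0 1 + C (b 0) * mon 2 1 0 + C (b 2) * mon 1 1 1 +
    C (b 4) * mon 0 1 2 + C (b 1 - a 0) * mon 1 2 0 + C (b 3 - a 1) * mon 0 2 1

theorem Q_hom (a : Fin 2 → R) (b : Fin 5 → R) : (Q a b).IsHomogeneous 3 := by
  unfold Q
  exact ((((((cmon_hom _ _ _ _ rfl).add (cmon_hom _ _ _ _ rfl)).add (cmon_hom _ _ _ _ rfl)).add
    (cmon_hom _ _ _ _ rfl)).add (cmon_hom _ _ _ _ rfl)).add (cmon_hom _ _ _ _ rfl)).add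
    (cmon_hom _ _ _ _ rfl)

/-- the family of tuples -/
def T (a : Fin 2 ⊕ Fin 2 → R) (b : Fin 5 ⊕ Fin 5 → R) : Tuple R 2 :=
  ![mon 1 1 1 - mon 0 3 0, mon 0 0 3 + Q (fun i => a (.inl i)) (fun i => b (.inl i)),
    mon 3 0 0 + Q (fun i => a (.inr i)) (fun i => b (.inr i))]

theorem T_hom (a : Fin 2 ⊕ Fin 2 → R) (b : Fin 5 ⊕ Fin 5 → R) (i : Fin 3) :
    (T a b i).IsHomogeneous 3 := by
  fin_cases i
  · exact (mon_hom 1 1 1 rfl).sub (mon_hom 0 3 0 rfl)
  · exact (mon_hom 0 0 3 rfl).add (Q_hom _ _)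
  · exact (mon_hom 3 0 0 rfl).add (Q_hom _ _)

theorem map_mon (f : R →+* S) (i j k : ℕ) : map f (mon i j k) = mon i j k := by
  simp [mon]

theorem map_Q (f : R →+* S) (a : Fin 2 → R) (b : Fin 5 → R) :
    map f (Q a b) = Q (fun i => f (a i)) (fun i => f (b i)) := by
  simp [Q, map_mon]

theorem map_T (f : R →+* S) (a : Fin 2 ⊕ Fin 2 → R) (b : Fin 5 ⊕ Fin 5 → R) :
    (fun i => map f (T a b i)) = T (fun i => f (a i)) (fun i => f (b i)) := by
  funext i
  fin_cases i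
  · simp [T, map_mon]
  · simp [T, map_mon, map_Q]
  · simp [T, map_mon, map_Q]

theorem eval_mon (f : R →+* S) (x : Fin 3 → S) (i j k : ℕ) :
    eval₂ f x (mon i j k) = x 0 ^ i * x 1 ^ j * x 2 ^ k := by
  simp [mon]

end ring

theorem intGood_T (a : Fin 2 ⊕ Fin 2 → Z2) (b : Fin 5 ⊕ Fin 5 → Z2) (ha : Cop 3 a)
    (hb : Cop 6 b) : IntGood 2 3 (T a b) := by
  refine ⟨T_hom a b, ?_⟩
  intro κ _ _ φ (x : Fin 3 → κ) hx
  have h0 : eval₂ φ x (mon 1 1 1 - mon 0 3 0 : MvPolynomial (Fin 3) Z2) = 0 := hx 0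
  have h1 : eval₂ φ x (mon 0 0 3 + Q (fun i => a (.inl i)) (fun i => b (.inl i)) :
    MvPolynomial (Fin 3) Z2) = 0 := hx 1
  have h2 : eval₂ φ x (mon 3 0 0 + Q (fun i => a (.inr i)) (fun i => b (.inr i)) :
    MvPolynomial (Fin 3) Z2) = 0 := hx 2
  simp only [Q, eval₂_add, eval₂_sub, eval₂_mul, eval₂_C, eval_mon, map_sub] at h0 h1 h2
  have ha' := ha κ φ (x 0) (x 2)
  simp [Fin.sum_univ_succ] at ha'
  have h0' : x 1 = 0 ∨ x 0 * x 2 = x 1 ^ 2 := by
    have : x 1 * (x 0 * x 2 - x 1 ^ 2) = 0 := by linear_combination h0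
    rcases mul_eq_zero.1 this with h | h
    · exact Or.inl h
    · exact Or.inr (sub_eq_zero.1 h)
  rcases h0' with h | h
  · rw [h] at h1 h2
    obtain ⟨h3, h4⟩ := ha' (by linear_combination h1) (by linear_combination h2)
    funext i
    fin_cases i
    · exact h3
    · exact h
    · exact h4
  · obtain ⟨s, t, hs, hst, ht⟩ : ∃ s t : κ, x 0 = s ^ 2 ∧ x 1 = s * t ∧ x 2 = t ^ 2 := by
      by_cases hx0 : x 0 = 0
      · obtain ⟨t, ht⟩ := IsAlgClosed.exists_pow_nat_eq (x 2) (n := 2) (by norm_num)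
        refine ⟨0, t, by simp [hx0], ?_, ht.symm⟩
        rw [hx0, zero_mul] at h
        have : x 1 = 0 := by
          have := h.symm
          exact pow_eq_zero_iff (two_ne_zero) |>.1 this
        simp [this]
      · obtain ⟨s, hs⟩ := IsAlgClosed.exists_pow_nat_eq (x 0) (n := 2) (by norm_num)
        have hs0 : s ≠ 0 := by
          rintro rfl
          apply hx0
          rw [← hs]; simp
        refine ⟨s, x 1 / s, hs.symm, by field_simp, ?_⟩
        rw [div_pow, hs]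
        rw [eq_div_iff hx0]
        linear_combination h
    have hb' := hb κ φ s t
    simp [Fin.sum_univ_succ] at hb'
    rw [hs, hst, ht] at h1 h2
    obtain ⟨h3, h4⟩ := hb' (by linear_combination h1) (by linear_combination h2)
    funext i
    fin_cases i
    · show x 0 = 0
      rw [hs, h3]; simp
    · show x 1 = 0
      rw [hst, h3]; simp
    · show x 2 = 0
      rw [ht, h4]; simp

/-! ### Density -/

theorem zcl_of_good {T : Tuple Z2 2} (hT : IntGood 2 3 T) :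
    (fun i => map io (T i)) ∈ Zcl 2 3 :=
  ⟨fun i => (hT.1 i).map io, fun _ hp => hp T hT⟩

theorem eval_fam {σ : Type} (Tg : Tuple (MvPolynomial σ Kb) 2) (c : σ → Kb)
    (p : MvPolynomial (Fin 3 × (Fin 3 →₀ ℕ)) Kb) :
    eval (co fun i => map (eval c) (Tg i)) p =
      eval c (aeval (fun q : Fin 3 × (Fin 3 →₀ ℕ) => coeff q.2 (Tg q.1)) p) := by
  induction p using MvPolynomial.induction_on with
  | C a => simp
  | add p q hp hq => simp [hp, hq]
  | mul_X p i hp => simp [hp, co, coeff_map]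

theorem dense_fam {σ : Type} {E : Set (σ → Z2)} (hE : ZDense E)
    (Tg : Tuple (MvPolynomial σ Kb) 2) (hh : ∀ i, (Tg i).IsHomogeneous 3)
    (h : ∀ e ∈ E, (fun i => map (eval fun s => io (e s)) (Tg i)) ∈ Zcl 2 3) (a : σ → Kb) :
    (fun i => map (eval a) (Tg i)) ∈ Zcl 2 3 := by
  refine ⟨fun i => (hh i).map _, fun p hp => ?_⟩
  have h1 : aeval (fun q : Fin 3 × (Fin 3 →₀ ℕ) => coeff q.2 (Tg q.1)) p = 0 := by
    apply hE
    intro e he
    have := (h e he).2 p hp
    rw [eval_fam] at this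
    exact this
  have h2 := eval_fam Tg a p
  rw [h1, map_zero] at h2
  exact h2

theorem T_mem (hDN : P_DN) (a : Fin 2 ⊕ Fin 2 → Kb) (b : Fin 5 ⊕ Fin 5 → Kb) :
    T a b ∈ Zcl 2 3 := by
  have h3 : ZDense (σ := Fin 2 ⊕ Fin 2) {a | Cop 3 a} := hDN 3 (by norm_num)
  have h6 : ZDense (σ := Fin 5 ⊕ Fin 5) {b | Cop 6 b} := hDN 6 (by norm_num)
  have s1 : ∀ b : Fin 5 ⊕ Fin 5 → Z2, Cop 6 b → ∀ a : Fin 2 ⊕ Fin 2 → Kb,
      T a (fun i => io (b i)) ∈ Zcl 2 3 := by
    intro b hb a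
    have h := dense_fam h3 (T (fun i => X i) (fun i => C (io (b i)))) (T_hom _ _) (by
      intro e he
      rw [map_T]
      have h1 := zcl_of_good (intGood_T e b he hb)
      rw [map_T] at h1
      simpa using h1) a
    rw [map_T] at h
    simpa using h
  have h := dense_fam h6 (T (fun i => C (a i)) (fun i => X i)) (T_hom _ _) (by
      intro e he
      rw [map_T]
      simpa using s1 e he a) b
  rw [map_T] at h
  simpa using h

/-! ### Row operations -/

theorem lin_one (F : MvPolynomial (Fin 3) Kb) : lin (1 : Matrix (Fin 3) (Fin 3) Kb) F = F := by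
  unfold lin
  have : (fun l : Fin 3 => ∑ m, C ((1 : Matrix (Fin 3) (Fin 3) Kb) l m) * X m) =
      (X : Fin 3 → MvPolynomial (Fin 3) Kb) := by
    funext l
    simp [Matrix.one_apply]
  rw [this, bind₁_X_left]
  rfl

theorem row_op (hC : P_CURVE) (hI : P_INV) (A : Matrix (Fin 3) (Fin 3) Kb) (hA : A.det ≠ 0)
    (F : Tuple Kb 2) (hF : F ∈ Zcl 2 3) : (fun i => ∑ j, C (A i j) * F j) ∈ Zcl 2 3 := by
  have h := hI hC 2 3 A 1 hA (by simp) F hF
  simp only [lin_one] at h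
  exact h

/-! ### Coefficients of a cubic form -/

theorem mon_eq (v : Fin 3 → ℕ) : (mon (v 0) (v 1) (v 2) : MvPolynomial (Fin 3) Kb) =
    monomial (Finsupp.equivFunOnFinite.symm v) 1 := by
  rw [monomial_eq, Finsupp.prod_fintype _ _ (by simp), Fin.prod_univ_three]
  simp [mon]

/-- a coefficient -/
def cf (F : MvPolynomial (Fin 3) Kb) (i j k : ℕ) : Kb :=
  coeff (Finsupp.equivFunOnFinite.symm ![i, j, k]) F

theorem decomp (F : MvPolynomial (Fin 3) Kb) (hF : F.IsHomogeneous 3) :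
    F = C (cf F 3 0 0) * mon 3 0 0 + C (cf F 0 3 0) * mon 0 3 0 + C (cf F 0 0 3) * mon 0 0 3 +
      C (cf F 2 1 0) * mon 2 1 0 + C (cf F 2 0 1) * mon 2 0 1 + C (cf F 1 2 0) * mon 1 2 0 +
      C (cf F 0 2 1) * mon 0 2 1 + C (cf F 1 0 2) * mon 1 0 2 + C (cf F 0 1 2) * mon 0 1 2 +
      C (cf F 1 1 1) * mon 1 1 1 := by
  have key : F = ∑ v ∈ Finset.Nat.antidiagonalTuple 3 3,
      C (coeff (Finsupp.equivFunOnFinite.symm v) F) * mon (v 0) (v 1) (v 2) := by
    ext d
    rw [coeff_sum]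
    have h1 : ∀ v : Fin 3 → ℕ, coeff d (C (coeff (Finsupp.equivFunOnFinite.symm v) F) *
        mon (v 0) (v 1) (v 2)) = if v = d then coeff d F else 0 := by
      intro v
      rw [mon_eq, coeff_C_mul, coeff_monomial]
      by_cases hv : Finsupp.equivFunOnFinite.symm v = d
      · have hv' : v = d := by rw [← hv]; rfl
        rw [if_pos hv, if_pos hv', mul_one, hv]
      · have hv' : v ≠ d := by
          rintro rfl
          apply hv
          ext i; rfl
        rw [if_neg hv, if_neg hv', mul_zero]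
    simp only [h1]
    by_cases hd : (d : Fin 3 → ℕ) ∈ Finset.Nat.antidiagonalTuple 3 3
    · rw [Finset.sum_ite_eq' , if_pos hd]
    · rw [Finset.sum_ite_eq', if_neg hd]
      refine hF.coeff_eq_zero ?_
      rw [Finset.Nat.mem_antidiagonalTuple] at hd
      rw [Finsupp.degree_eq_sum]
      exact hd
  have h2 : Finset.Nat.antidiagonalTuple 3 3 = {![3, 0, 0], ![0, 3, 0], ![0, 0, 3], ![2, 1, 0],
    ![2, 0, 1], ![1, 2, 0], ![0, 2, 1], ![1, 0, 2], ![0, 1, 2], ![1, 1, 1]} := by decide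
  conv_lhs => rw [key, h2]
  rw [Finset.sum_insert (by decide), Finset.sum_insert (by decide), Finset.sum_insert (by decide),
    Finset.sum_insert (by decide), Finset.sum_insert (by decide), Finset.sum_insert (by decide),
    Finset.sum_insert (by decide), Finset.sum_insert (by decide), Finset.sum_insert (by decide),
    Finset.sum_singleton]
  simp only [Matrix.cons_val_zero, Matrix.cons_val_one, Matrix.cons_val, cf]
  ring

/-- the reduced form: the value matrix is `1` -/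
theorem mem_red (hC : P_CURVE) (hI : P_INV) (hDN : P_DN) (F1 F2 : MvPolynomial (Fin 3) Kb)
    (h1 : F1.IsHomogeneous 3) (h2 : F2.IsHomogeneous 3) (h11 : cf F1 0 0 3 = 1)
    (h12 : cf F1 3 0 0 = 0) (h21 : cf F2 0 0 3 = 0) (h22 : cf F2 3 0 0 = 1) :
    (![X 1 * (X 0 * X 2 - X 1 ^ 2), F1, F2] : Tuple Kb 2) ∈ Zcl 2 3 := by
  have hT := T_mem hDN
    (Sum.elim ![cf F1 2 0 1, cf F1 1 0 2] ![cf F2 2 0 1, cf F2 1 0 2])
    (Sum.elim ![cf F1 2 1 0, cf F1 1 2 0 + cf F1 2 0 1, cf F1 1 1 1 + cf F1 0 3 0,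
      cf F1 0 2 1 + cf F1 1 0 2, cf F1 0 1 2]
      ![cf F2 2 1 0, cf F2 1 2 0 + cf F2 2 0 1, cf F2 1 1 1 + cf F2 0 3 0,
      cf F2 0 2 1 + cf F2 1 0 2, cf F2 0 1 2])
  have h := row_op hC hI !![1, 0, 0; -cf F1 0 3 0, 1, 0; -cf F2 0 3 0, 0, 1] (by
    simp [Matrix.det_fin_three]) _ hT
  refine cast (congrArg (· ∈ Zcl 2 3) ?_) h
  funext i
  fin_cases i
  · simp [Fin.sum_univ_three, T, mon]
    ring
  · simp only [Fin.sum_univ_three, T, Q]
    simp
    have e := decomp F1 h1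
    rw [h11, h12, map_one, map_zero] at e
    refine Eq.trans ?_ e.symm
    ring
  · simp only [Fin.sum_univ_three, T, Q]
    simp
    have e := decomp F2 h2
    rw [h21, h22, map_one, map_zero] at e
    refine Eq.trans ?_ e.symm
    ring

theorem cf_lin (a b : Kb) (F G : MvPolynomial (Fin 3) Kb) (i j k : ℕ) :
    cf (C a * F + C b * G) i j k = a * cf F i j k + b * cf G i j k := by
  simp [cf]

theorem F0_hom : (X 1 * (X 0 * X 2 - X 1 ^ 2) : MvPolynomial (Fin 3) Kb).IsHomogeneous 3 := by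
  have h := (mon_hom (R := Kb) 1 1 1 rfl).sub (mon_hom 0 3 0 rfl)
  have e : (mon 1 1 1 - mon 0 3 0 : MvPolynomial (Fin 3) Kb) = X 1 * (X 0 * X 2 - X 1 ^ 2) := by
    simp [mon]; ring
  rwa [e] at h

/-- the value matrix is invertible -/
theorem mem_inv (hC : P_CURVE) (hI : P_INV) (hDN : P_DN) (F1 F2 : MvPolynomial (Fin 3) Kb)
    (h1 : F1.IsHomogeneous 3) (h2 : F2.IsHomogeneous 3)
    (hd : cf F1 0 0 3 * cf F2 3 0 0 - cf F1 3 0 0 * cf F2 0 0 3 ≠ 0) :
    (![X 1 * (X 0 * X 2 - X 1 ^ 2), F1, F2] : Tuple Kb 2) ∈ Zcl 2 3 := by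
  set v11 := cf F1 0 0 3 with hv11
  set v12 := cf F1 3 0 0 with hv12
  set v21 := cf F2 0 0 3 with hv21
  set v22 := cf F2 3 0 0 with hv22
  set Δ := v11 * v22 - v12 * v21 with hΔ
  have hcl : ∀ a b : Kb, (C a * F1 + C b * F2).IsHomogeneous 3 := by
    intro a b
    have e1 := (isHomogeneous_C (Fin 3) a).mul h1
    have e2 := (isHomogeneous_C (Fin 3) b).mul h2
    rw [zero_add] at e1 e2
    exact e1.add e2
  have hR := mem_red hC hI hDN (C (v22 / Δ) * F1 + C (-v12 / Δ) * F2)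
    (C (-v21 / Δ) * F1 + C (v11 / Δ) * F2) (hcl _ _) (hcl _ _)
    (by rw [cf_lin, ← hv11, ← hv21]; field_simp; rw [hΔ]; ring)
    (by rw [cf_lin, ← hv12, ← hv22]; field_simp; ring)
    (by rw [cf_lin, ← hv11, ← hv21]; field_simp; ring)
    (by rw [cf_lin, ← hv12, ← hv22]; field_simp; rw [hΔ]; ring)
  have h := row_op hC hI !![1, 0, 0; 0, v11, v12; 0, v21, v22] (by
    rw [Matrix.det_fin_three]
    simpa [hΔ] using hd) _ hR
  refine cast (congrArg (· ∈ Zcl 2 3) ?_) h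
  have c1 : v11 * (v22 / Δ) + v12 * (-v21 / Δ) = 1 := by field_simp; rw [hΔ]; ring
  have c2 : v11 * (-v12 / Δ) + v12 * (v11 / Δ) = 0 := by field_simp; ring
  have c3 : v21 * (v22 / Δ) + v22 * (-v21 / Δ) = 0 := by field_simp; ring
  have c4 : v21 * (-v12 / Δ) + v22 * (v11 / Δ) = 1 := by field_simp; rw [hΔ]; ring
  funext i
  fin_cases i
  · simp [Fin.sum_univ_three]
  · show ∑ j : Fin 3, _ = F1
    rw [Fin.sum_univ_three]
    show C (0 : Kb) * _ + C v11 * (C (v22 / Δ) * F1 + C (-v12 / Δ) * F2) +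
      C v12 * (C (-v21 / Δ) * F1 + C (v11 / Δ) * F2) = F1
    calc _ = C (v11 * (v22 / Δ) + v12 * (-v21 / Δ)) * F1 +
        C (v11 * (-v12 / Δ) + v12 * (v11 / Δ)) * F2 := by
          simp only [map_add, map_mul, map_zero]; ring
      _ = F1 := by rw [c1, c2]; simp
  · show ∑ j : Fin 3, _ = F2
    rw [Fin.sum_univ_three]
    show C (0 : Kb) * _ + C v21 * (C (v22 / Δ) * F1 + C (-v12 / Δ) * F2) +
      C v22 * (C (-v21 / Δ) * F1 + C (v11 / Δ) * F2) = F2
    calc _ = C (v21 * (v22 / Δ) + v22 * (-v21 / Δ)) * F1 +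
        C (v21 * (-v12 / Δ) + v22 * (v11 / Δ)) * F2 := by
          simp only [map_add, map_mul, map_zero]; ring
      _ = F2 := by rw [c3, c4]; simp

theorem cf_add_mon (F : MvPolynomial (Fin 3) Kb) (t : Kb) (i j k : ℕ) (v : Fin 3 → ℕ) :
    cf (F + C t * mon (v 0) (v 1) (v 2)) i j k =
      cf F i j k + if v = ![i, j, k] then t else 0 := by
  unfold cf
  rw [mon_eq, coeff_add, coeff_C_mul, coeff_monomial]
  by_cases h : v = ![i, j, k]
  · rw [if_pos h, if_pos (by rw [h]), mul_one]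
  · rw [if_neg h, if_neg (fun e => h (Finsupp.equivFunOnFinite.symm.injective e)), mul_zero]

end B23

/-- PIECE B23 -/
theorem p_b23 : P_B23 := by
  intro hC hI hDN F1 F2 h1 h2
  set γ : Kb → Tuple Kb 2 := fun t => ![X 1 * (X 0 * X 2 - X 1 ^ 2), F1 + C t * B23.mon 0 0 3,
    F2 + C t * B23.mon 3 0 0] with hγ
  have hh : ∀ t (i : Fin 3), (γ t i).IsHomogeneous 3 := by
    intro t i
    fin_cases i
    · exact B23.F0_hom
    · exact h1.add (B23.cmon_hom _ _ _ _ rfl)
    · exact h2.add (B23.cmon_hom _ _ _ _ rfl)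
  have key := hC 2 3 γ 1 hh (by
    rintro ⟨i, m⟩
    have hA : ∃ A : Polynomial Kb, ∀ t, co (γ t) (i, m) = A.eval t := by
      unfold co
      fin_cases i
      · exact ⟨Polynomial.C (coeff m (X 1 * (X 0 * X 2 - X 1 ^ 2))), fun t => by simp [hγ]⟩
      · refine ⟨Polynomial.C (coeff m F1) + Polynomial.X * Polynomial.C (coeff m (B23.mon 0 0 3)),
          fun t => ?_⟩
        simp [hγ, coeff_C_mul]
        ring
      · refine ⟨Polynomial.C (coeff m F2) + Polynomial.X * Polynomial.C (coeff m (B23.mon 3 0 0)),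
          fun t => ?_⟩
        simp [hγ, coeff_C_mul]
        ring
    obtain ⟨A, hA⟩ := hA
    exact ⟨A, 0, fun t _ => by rw [hA t, pow_zero, mul_one]⟩) ?_ 0 (by simp)
  · simpa [hγ] using key
  · have hfin : {t : Kb | (B23.cf F1 0 0 3 + t) * (B23.cf F2 3 0 0 + t) -
        B23.cf F1 3 0 0 * B23.cf F2 0 0 3 = 0}.Finite := by
      have hp : ((Polynomial.C (B23.cf F1 0 0 3) + Polynomial.X) *
          (Polynomial.C (B23.cf F2 3 0 0) + Polynomial.X) -
          Polynomial.C (B23.cf F1 3 0 0 * B23.cf F2 0 0 3) : Polynomial Kb) ≠ 0 := by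
        intro h
        have h2 := congrArg (fun p => Polynomial.coeff p 2) h
        have e : ((Polynomial.C (B23.cf F1 0 0 3) + Polynomial.X) *
          (Polynomial.C (B23.cf F2 3 0 0) + Polynomial.X) -
          Polynomial.C (B23.cf F1 3 0 0 * B23.cf F2 0 0 3) : Polynomial Kb) =
          Polynomial.X ^ 2 + Polynomial.C (B23.cf F1 0 0 3 + B23.cf F2 3 0 0) * Polynomial.X +
          Polynomial.C (B23.cf F1 0 0 3 * B23.cf F2 3 0 0 -
            B23.cf F1 3 0 0 * B23.cf F2 0 0 3) := by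
          simp only [map_add, map_mul, map_sub]; ring
        rw [e] at h2
        simp at h2
      refine (Polynomial.rootSet_finite ((Polynomial.C (B23.cf F1 0 0 3) + Polynomial.X) *
          (Polynomial.C (B23.cf F2 3 0 0) + Polynomial.X) -
          Polynomial.C (B23.cf F1 3 0 0 * B23.cf F2 0 0 3) : Polynomial Kb) Kb).subset ?_
      intro t ht
      rw [Polynomial.mem_rootSet]
      refine ⟨hp, ?_⟩
      simpa using ht
    refine (hfin.infinite_compl).mono ?_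
    intro t ht
    refine ⟨by simp, ?_⟩
    refine B23.mem_inv hC hI hDN _ _ (hh t 1) (hh t 2) ?_
    have e1 := B23.cf_add_mon F1 t 0 0 3 ![0, 0, 3]
    have e2 := B23.cf_add_mon F1 t 3 0 0 ![0, 0, 3]
    have e3 := B23.cf_add_mon F2 t 0 0 3 ![3, 0, 0]
    have e4 := B23.cf_add_mon F2 t 3 0 0 ![3, 0, 0]
    rw [if_pos rfl] at e1 e4
    rw [if_neg (by decide), add_zero] at e2 e3
    intro h
    apply ht
    show (B23.cf F1 0 0 3 + t) * (B23.cf F2 3 0 0 + t) -
        B23.cf F1 3 0 0 * B23.cf F2 0 0 3 = 0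
    rw [← e1, ← e2, ← e3, ← e4]
    exact h

end

end Pool.Agent.W2helper9.SD
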